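import Pool.Agent.MP2b057c.AllCore

/-!
# The automorphism group of a full shift determines the number of letters

For finite nonempty alphabets `A` and `B` the following are equivalent: the automorphism groups
of the full shifts over `A` and `B` are isomorphic; some group is a quotient of both groups by
subgroups which consist of powers of the shift; `A` and `B` have the same number of letters.
-/

set_option autoImplicit false

universe u v w

namespace Pool.Agent.Results.MP_2b057c_an.AllAlphabets

/-- The shift map on bi-infinite sequences. -/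
def shiftMap {A : Type u} (x : ℤ → A) : ℤ → A := fun i => x (i + 1)

/-- The automorphism group of the full shift with alphabet `A`: the group, under composition, of
the homeomorphisms of `ℤ → A` (product topology) which commute with the shift. -/
def shiftAut (A : Type u) [TopologicalSpace A] : Subgroup ((ℤ → A) ≃ₜ (ℤ → A)) where
  carrier := {f | ∀ x, f (shiftMap x) = shiftMap (f x)}
  mul_mem' := by
    intro f g hf hg x
    show f (g (shiftMap x)) = shiftMap (f (g x))
    rw [hg, hf]
  one_mem' := fun _ => rfl
  inv_mem' := by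
    intro f hf x
    apply f.injective
    have h1 : ∀ y, f ((f⁻¹ : (ℤ → A) ≃ₜ (ℤ → A)) y) = y := fun y => f.apply_symm_apply y
    rw [h1, hf, h1]

/-- The automorphism group of the full shift as a type. -/
def AutG (A : Type u) [TopologicalSpace A] : Type u := shiftAut A

instance (A : Type u) [TopologicalSpace A] : Group (AutG A) :=
  inferInstanceAs (Group (shiftAut A))

/-- The shift as a homeomorphism. -/
def shiftHomeo (A : Type u) [TopologicalSpace A] : (ℤ → A) ≃ₜ (ℤ → A) where
  toFun := shiftMap
  invFun := fun x i => x (i - 1)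
  left_inv := fun x => by funext i; simp [shiftMap]
  right_inv := fun x => by funext i; simp [shiftMap]
  continuous_toFun := by unfold shiftMap; fun_prop
  continuous_invFun := by fun_prop

/-- The shift as an element of the automorphism group. -/
def shiftEl (A : Type u) [TopologicalSpace A] : AutG A := ⟨shiftHomeo A, fun _ => rfl⟩

open FShift

/-- Change of the alphabet. -/
def conj {A : Type u} [TopologicalSpace A] {n : ℕ} (e : A ≃ₜ Fin n) :
    (ℤ → A) ≃ₜ (ℤ → Fin n) where
  toFun x i := e (x i)
  invFun y i := e.symm (y i)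
  left_inv x := by funext i; simp
  right_inv y := by funext i; simp
  continuous_toFun := by fun_prop
  continuous_invFun := by fun_prop

lemma conj_sh {A : Type u} [TopologicalSpace A] {n : ℕ} (e : A ≃ₜ Fin n) (x : ℤ → A) :
    conj e (shiftMap x) = sh 1 (conj e x) := rfl

lemma conj_symm_sh {A : Type u} [TopologicalSpace A] {n : ℕ} (e : A ≃ₜ Fin n)
    (y : ℤ → Fin n) : (conj e).symm (sh 1 y) = shiftMap ((conj e).symm y) := rfl

/-- The group of the project file `Defs` for the alphabet `Fin n`. -/
def toG {A : Type u} [TopologicalSpace A] {n : ℕ} (e : A ≃ₜ Fin n) :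
    AutG A ≃* G (Fin n) where
  toFun f := ⟨((conj e).symm.trans (f.1.trans (conj e))).toEquiv, by
    refine ⟨fun x => ?_, ?_, ?_⟩
    · show conj e (f.1 ((conj e).symm (sh 1 x))) = sh 1 (conj e (f.1 ((conj e).symm x)))
      rw [conj_symm_sh, f.2, conj_sh]
    · exact ((conj e).symm.trans (f.1.trans (conj e))).continuous
    · exact ((conj e).symm.trans (f.1.trans (conj e))).symm.continuous⟩
  invFun g := ⟨(conj e).trans
      (({ g.1 with
          continuous_toFun := g.2.2.1
          continuous_invFun := g.2.2.2 } : (ℤ → Fin n) ≃ₜ (ℤ → Fin n)).trans (conj e).symm), by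
    intro x
    show (conj e).symm (g.1 (conj e (shiftMap x))) = shiftMap ((conj e).symm (g.1 (conj e x)))
    rw [conj_sh, g.2.1, conj_symm_sh]⟩
  left_inv f := by
    apply Subtype.ext
    apply Homeomorph.ext
    intro x
    show (conj e).symm (conj e (f.1 ((conj e).symm (conj e x)))) = f.1 x
    rw [Homeomorph.symm_apply_apply, Homeomorph.symm_apply_apply]
  right_inv g := by
    apply Subtype.ext
    apply Equiv.ext
    intro x
    show conj e ((conj e).symm (g.1 (conj e ((conj e).symm x)))) = g.1 x
    rw [Homeomorph.apply_symm_apply, Homeomorph.apply_symm_apply]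
  map_mul' f g := by
    apply Subtype.ext
    apply Equiv.ext
    intro x
    show conj e (f.1 (g.1 ((conj e).symm x))) =
      conj e (f.1 ((conj e).symm (conj e (g.1 ((conj e).symm x)))))
    rw [Homeomorph.symm_apply_apply]

lemma toG_shiftEl {A : Type u} [TopologicalSpace A] {n : ℕ} (e : A ≃ₜ Fin n)
    (x : ℤ → Fin n) : (toG e (shiftEl A)).1 x = sh 1 x := by
  show conj e (shiftMap ((conj e).symm x)) = sh 1 x
  rw [conj_sh, Homeomorph.apply_symm_apply]

/-- Powers of the shift. -/
lemma toG_zpow {A : Type u} [TopologicalSpace A] {n : ℕ} (e : A ≃ₜ Fin n) (k : ℤ)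
    (x : ℤ → Fin n) : (toG e (shiftEl A ^ k)).1 x = sh k x := by
  rw [map_zpow]
  have h1 : ∀ (m : ℕ) (y : ℤ → Fin n), ((toG e (shiftEl A)) ^ m).1 y = sh (m : ℤ) y := by
    intro m
    induction m with
    | zero => intro y; simp
    | succ m ih =>
      intro y
      rw [pow_succ]
      show ((toG e (shiftEl A)) ^ m).1 ((toG e (shiftEl A)).1 y) = _
      rw [ih, toG_shiftEl, sh_sh]
      push_cast
      rfl
  rcases Int.eq_nat_or_neg k with ⟨m, rfl | rfl⟩
  · rw [zpow_natCast, h1]
  · rw [zpow_neg, zpow_natCast]
    have h2 : ((toG e (shiftEl A)) ^ m).1 ((((toG e (shiftEl A)) ^ m)⁻¹ : G (Fin n)).1 x) = x := by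
      show (((toG e (shiftEl A)) ^ m) * (((toG e (shiftEl A)) ^ m)⁻¹ : G (Fin n))).1 x = x
      rw [mul_inv_cancel]
      rfl
    rw [h1] at h2
    conv_rhs => rw [← h2]
    rw [sh_sh]
    simp

lemma shift_of_mem {A : Type u} [TopologicalSpace A] {n : ℕ} (e : A ≃ₜ Fin n)
    {f : AutG A} (hf : f ∈ Subgroup.zpowers (shiftEl A)) :
    ∃ j : ℤ, ∀ x, (toG e f).1 x = sh j x := by
  obtain ⟨k, rfl⟩ := Subgroup.mem_zpowers_iff.1 hf
  exact ⟨k, toG_zpow e k⟩

/-- Not every automorphism is a power of the shift, if there are two letters. -/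
lemma exists_not_shift {n : ℕ} (hn : 2 ≤ n)
    (h : ∀ g : G (Fin n), ∃ j : ℤ, ∀ x, g.1 x = sh j x) : False := by
  obtain ⟨a, a', -, haa, -⟩ := main_MTord (A := Fin n) ⟨0, by omega⟩ ⟨1, by omega⟩
    (by simp) 0
  apply haa
  obtain ⟨j, hj⟩ := h a
  apply Subtype.ext
  apply Equiv.ext
  intro x
  show a.1 (a'.1 x) = a'.1 (a.1 x)
  rw [hj, hj, G_sh]

/-- The main step. -/
lemma card_le {A : Type u} {B : Type v} [TopologicalSpace A] [TopologicalSpace B] {m n : ℕ}
    (hm : 0 < m) (eA : A ≃ₜ Fin m) (eB : B ≃ₜ Fin n) {Q : Type w} [Group Q]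
    (α : AutG A →* Q) (β : AutG B →* Q) (hα : Function.Surjective α)
    (hβ : Function.Surjective β) (kα : α.ker ≤ Subgroup.zpowers (shiftEl A))
    (kβ : β.ker ≤ Subgroup.zpowers (shiftEl B)) : n ≤ m := by
  by_contra hlt
  push Not at hlt
  rcases Nat.lt_or_ge m 2 with h2 | h2
  · -- one letter
    have hm1 : m = 1 := by omega
    subst hm1
    have hA : ∀ f : AutG A, f = 1 := by
      intro f
      apply Subtype.ext
      apply Homeomorph.ext
      intro x
      funext i
      apply eA.injective
      exact Subsingleton.elim _ _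
    refine exists_not_shift (n := n) (by omega) fun g => ?_
    have h3 : (toG eB).symm g ∈ β.ker := by
      rw [MonoidHom.mem_ker]
      obtain ⟨f, hf⟩ := hα (β ((toG eB).symm g))
      rw [← hf, hA f]
      exact map_one α
    obtain ⟨j, hj⟩ := shift_of_mem eB (kβ h3)
    rw [MulEquiv.apply_symm_apply] at hj
    exact ⟨j, hj⟩
  · refine no_common (A := Fin m) (B := Fin n) (by simpa using h2) (by simpa using hlt)
      (Q := Q) (α.comp (toG eA).symm.toMonoidHom) (β.comp (toG eB).symm.toMonoidHom)
      (hα.comp (toG eA).symm.surjective) (hβ.comp (toG eB).symm.surjective) ?_ ?_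
    · intro g hg
      obtain ⟨j, hj⟩ := shift_of_mem eA (kα (MonoidHom.mem_ker.2 hg))
      refine ⟨j, fun x => ?_⟩
      rw [← hj x]
      exact congrArg (fun q : G (Fin m) => q.1 x) ((toG eA).apply_symm_apply g).symm
    · intro g hg
      obtain ⟨j, hj⟩ := shift_of_mem eB (kβ (MonoidHom.mem_ker.2 hg))
      refine ⟨j, fun x => ?_⟩
      rw [← hj x]
      exact congrArg (fun q : G (Fin n) => q.1 x) ((toG eB).apply_symm_apply g).symm

/-- A homeomorphism with `Fin n`. -/
lemma exists_homeo (A : Type u) [Finite A] [TopologicalSpace A] [DiscreteTopology A] :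
    Nonempty (A ≃ₜ Fin (Nat.card A)) := by
  obtain ⟨e⟩ : Nonempty (A ≃ Fin (Nat.card A)) := ⟨Finite.equivFin A⟩
  exact ⟨⟨e, continuous_of_discreteTopology, continuous_of_discreteTopology⟩⟩

/-- The automorphism groups of two full shifts are isomorphic, or have a common quotient by
groups of powers of the shift, exactly if the alphabets have the same number of letters. -/
theorem result {A : Type u} {B : Type v} [Finite A] [Finite B] [Nonempty A] [Nonempty B]
    [TopologicalSpace A] [DiscreteTopology A] [TopologicalSpace B] [DiscreteTopology B] :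
    List.TFAE
      [Nonempty (AutG A ≃* AutG B),
       ∃ (Q : Type v) (_ : Group Q) (α : AutG A →* Q) (β : AutG B →* Q),
         Function.Surjective α ∧ Function.Surjective β ∧
           α.ker ≤ Subgroup.zpowers (shiftEl A) ∧ β.ker ≤ Subgroup.zpowers (shiftEl B),
       Nat.card A = Nat.card B] := by
  obtain ⟨eA⟩ := exists_homeo A
  obtain ⟨eB⟩ := exists_homeo B
  tfae_have 1 → 2 := by
    rintro ⟨Φ⟩
    refine ⟨AutG B, inferInstance, Φ.toMonoidHom, MonoidHom.id _, Φ.surjective,
      Function.surjective_id, ?_, ?_⟩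
    · rw [(MonoidHom.ker_eq_bot_iff _).2 Φ.injective]
      exact bot_le
    · rw [(MonoidHom.ker_eq_bot_iff _).2 Function.injective_id]
      exact bot_le
  tfae_have 2 → 3 := by
    rintro ⟨Q, hQ, α, β, hα, hβ, kα, kβ⟩
    exact le_antisymm (card_le Nat.card_pos eB eA β α hβ hα kβ kα)
      (card_le Nat.card_pos eA eB α β hα hβ kα kβ)
  tfae_have 3 → 1 := by
    intro h
    rw [h] at eA
    exact ⟨(toG eA).trans (toG eB).symm⟩
  tfae_finish

end Pool.Agent.Results.MP_2b057c_an.AllAlphabets
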